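import Pool.Agent.Lib.MP_e1f7e2_al.FA.H22.Wfac

/-!
# Project FA, module PBN (helper22)
-/

set_option autoImplicit false

open MulOpposite

namespace Pool.Agent.Lib.MP_e1f7e2_al.FA.H22

open Pool.Agent.Lib.MP_e1f7e2_al.FA

theorem dg_zero' {K : Type*} [Field K] {n : ℕ} (w : Fin n → ℝ) : dg w (0 : A K n) = 0 := by
  unfold dg dgr
  rw [dif_neg]
  simp

theorem ky_inj {n : ℕ} (w : Fin n → ℝ) {u v : Wd n} (h : ky w u = ky w v) : u = v := by
  unfold ky at h
  have h2 := toLex.injective h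
  exact FreeMonoid.toList.injective (Prod.ext_iff.1 h2).2

/-- the block `wd` is a factor of `sw wd N W` if `W` has a letter `3` -/
theorem fac_sw (wd : Wd 3) (N : ℕ) (hN : 1 ≤ N) (W : Wd 4) (h : 1 ≤ W.toList.count 3) :
    Fac wd (sw wd N W) := by
  obtain ⟨s, R, rfl, -⟩ := first3 W h
  obtain ⟨N, rfl⟩ : ∃ N', N = N' + 1 := ⟨N - 1, by omega⟩
  refine ⟨sw wd (N + 1) s, wd ^ N * sw wd (N + 1) R, ?_⟩
  rw [map_mul, map_mul, sw_of3, pow_succ']
  simp only [mul_assoc]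

/-- elements whose leading words do not commute -/
theorem not_com {K : Type*} [Field K] {n : ℕ} {w : Fin n → ℝ} (hl : LwFacts K w)
    {f g : A K n} {v ω : Wd n} (hf : IsLw w f v) (hg : IsLw w g ω) (h : ω * v ≠ v * ω) :
    ¬ Com w f g := by
  have h1 := hl.mul f g v ω hf hg
  have h2 := hl.mul g f ω v hg hf
  have hs : dg w f + dg w g = wt w v + wt w ω := by rw [hl.dgw f v hf, hl.dgw g ω hg]
  have w1 : wt w (v * ω) = wt w v + wt w ω := by
    rw [← hl.dgw _ _ h1]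
    unfold wt
    rw [hl.dgw _ _ h1]
    unfold wt
    rw [FreeMonoid.toList_mul, List.map_append, List.sum_append]
  have w2 : wt w (ω * v) = wt w v + wt w ω := by
    unfold wt
    rw [FreeMonoid.toList_mul, List.map_append, List.sum_append, add_comm]
  intro hc
  unfold Com E at hc
  rcases lt_trichotomy (ky w (ω * v)) (ky w (v * ω)) with hk | hk | hk
  · have h3 := hl.smul _ _ (-1 : K) (by simp) h2
    have h4 := hl.add _ _ _ _ h1 h3 hk
    rw [neg_one_smul, ← sub_eq_add_neg] at h4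
    rw [hl.dgw _ _ h4, w1, hs] at hc
    exact lt_irrefl _ hc
  · exact h (ky_inj w hk)
  · have h3 := hl.smul _ _ (-1 : K) (by simp) h2
    have h4 := hl.add _ _ _ _ h3 h1 hk
    rw [neg_one_smul, neg_add_eq_sub] at h4
    rw [hl.dgw _ _ h4, w2, hs] at hc
    exact lt_irrefl _ hc

/-- Module PBN -/
theorem pbn (K : Type*) [Field K] (w : Fin 3 → ℝ) (hl : LwFacts K w) (hf : WfacFacts)
    (hwl : WlStatement K w) : PbnStatement K w := by
  intro z _ M
  refine ⟨M, fun θ wd hθ hn => ?_⟩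
  obtain ⟨N0, hN0⟩ := hwl M θ wd hθ hn
  refine ⟨max N0 1, fun N hN H1 H2 l1 l2 d1 d2 hpos => ?_⟩
  have hN1 : N0 ≤ N := le_trans (le_max_left _ _) hN
  have hN2 : 1 ≤ N := le_trans (le_max_right _ _) hN
  have n1 : Th z H1 ≠ 0 := by
    intro h0
    have : TN z θ N H1 = 0 := by
      unfold TN
      rw [AlgHom.comp_apply, h0, map_zero]
    rw [this, dg_zero'] at hpos
    exact lt_irrefl _ hpos
  have n2 : Th z H2 ≠ 0 := by
    intro h0
    rw [h0] at d2
    simp [dt] at d2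
  obtain ⟨⟨W1, m1, c1, -, lw1⟩, -⟩ := hN0 N hN1 _ n1 l1
  obtain ⟨⟨W2, m2, c2, -, lw2⟩, -⟩ := hN0 N hN1 _ n2 l2
  have e1 : TN z θ N H1 = sb (θ ^ N) (Th z H1) := rfl
  have e2 : TN z θ N H2 = sb (θ ^ N) (Th z H2) := rfl
  rw [e1, e2]
  rw [e1] at hpos
  apply not_com hl lw1 lw2
  refine hf.comm M wd _ _ hn ?_ ?_ ?_
  · intro h1
    rw [hl.dgw _ _ lw1, h1] at hpos
    simp [wt] at hpos
  · rw [sw_len0 wd N W1 (by rw [c1, d1])]
    exact l1 W1 m1
  · exact fac_sw wd N hN2 W2 (by rw [c2]; exact d2)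

end Pool.Agent.Lib.MP_e1f7e2_al.FA.H22
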