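import Pool.Agent.Lib.MP_e1f7e2_al.FA.Iface2

/-!
# Project FA, module WFAC: combinatorics of words (helper22)
-/

set_option autoImplicit false

open MulOpposite

namespace Pool.Agent.Lib.MP_e1f7e2_al.FA.H22

open Pool.Agent.Lib.MP_e1f7e2_al.FA

section lists

variable {α : Type*}

/-- powers of lists -/
def pw (d : List α) : ℕ → List α
  | 0 => []
  | k + 1 => d ++ pw d k

theorem pref_pw (d Z : List α) (c : ℕ)
    (hZ : ∀ p : List α, p <+: Z → ¬ d <:+: p → p.length ≤ d.length + c) :
    ∀ (k : ℕ) (p : List α), p <+: pw d k ++ Z → ¬ d <:+: p → p.length ≤ d.length + c := by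
  intro k
  induction k with
  | zero => intro p hp hd; exact hZ p hp hd
  | succ k _ =>
    intro p hp hd
    rw [pw, List.append_assoc] at hp
    rcases List.prefix_or_prefix_of_prefix hp (List.prefix_append d (pw d k ++ Z)) with h | h
    · have := h.length_le
      omega
    · exact absurd h.isInfix hd

theorem inf_app (d Z : List α) (c : ℕ)
    (hP : ∀ p : List α, p <+: Z → ¬ d <:+: p → p.length ≤ d.length + c)
    (hI : ∀ p : List α, p <:+: Z → ¬ d <:+: p → p.length ≤ 2 * d.length + c)
    (p : List α) (hp : p <:+: d ++ Z) (hd : ¬ d <:+: p) : p.length ≤ 2 * d.length + c := by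
  obtain ⟨s, t, h⟩ := hp
  rw [List.append_assoc, List.append_eq_append_iff] at h
  rcases h with ⟨a, ha, hb⟩ | ⟨a, ha, hb⟩
  · rw [List.append_eq_append_iff] at hb
    rcases hb with ⟨b, hb1, hb2⟩ | ⟨b, hb1, hb2⟩
    · have h1 := congrArg List.length ha
      have h2 := congrArg List.length hb1
      rw [List.length_append] at h1 h2
      omega
    · have h1 := congrArg List.length ha
      have h2 := congrArg List.length hb1
      rw [List.length_append] at h1 h2
      have h3 : b.length ≤ d.length + c := by
        apply hP b ⟨t, hb2.symm⟩
        intro hdb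
        apply hd
        rw [hb1]
        exact hdb.trans (List.suffix_append a b).isInfix
      omega
  · apply hI p ⟨a, t, ?_⟩ hd
    rw [hb, List.append_assoc]

theorem inf_pw (d Z : List α) (c : ℕ)
    (hP : ∀ p : List α, p <+: Z → ¬ d <:+: p → p.length ≤ d.length + c)
    (hI : ∀ p : List α, p <:+: Z → ¬ d <:+: p → p.length ≤ 2 * d.length + c) :
    ∀ (k : ℕ) (p : List α), p <:+: pw d k ++ Z → ¬ d <:+: p → p.length ≤ 2 * d.length + c := by
  intro k
  induction k with
  | zero => intro p hp hd; exact hI p hp hd
  | succ k ih =>
    intro p hp hd
    rw [pw, List.append_assoc] at hp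
    exact inf_app d _ c (pref_pw d Z c hP k) ih p hp hd

/-- `pw v k` has the period `|v|` -/
theorem pw_per (v : List α) : ∀ (k i : ℕ), i + v.length < (pw v k).length →
    (pw v k)[i]? = (pw v k)[i + v.length]? := by
  intro k
  induction k with
  | zero => intro i h; simp [pw] at h
  | succ k ih =>
    intro i h
    rw [pw] at h ⊢
    rw [List.getElem?_append_right (by omega : v.length ≤ i + v.length), Nat.add_sub_cancel]
    by_cases hi : i < v.length
    · rw [List.getElem?_append_left hi]
      rw [List.length_append] at h
      cases k with
      | zero => simp [pw] at h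
      | succ k =>
        rw [pw, List.getElem?_append_left hi]
    · push Not at hi
      rw [List.getElem?_append_right hi]
      rw [List.length_append] at h
      have := ih (i - v.length) (by omega)
      rw [this]
      congr 1
      omega

theorem per_infix {v w : List α} (r : ℕ) (h : w <:+: v)
    (hv : ∀ i : ℕ, i + r < v.length → v[i]? = v[i + r]?) :
    ∀ i : ℕ, i + r < w.length → w[i]? = w[i + r]? := by
  obtain ⟨s, t, rfl⟩ := h
  intro i hi
  have h1 := hv (s.length + i) (by simp only [List.length_append]; omega)
  have e1 : (s ++ w ++ t)[s.length + i]? = w[i]? := by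
    rw [List.append_assoc, List.getElem?_append_right (by omega),
      List.getElem?_append_left (by omega)]
    congr 1
    omega
  have e2 : (s ++ w ++ t)[s.length + i + r]? = w[i + r]? := by
    rw [List.append_assoc, List.getElem?_append_right (by omega),
      List.getElem?_append_left (by omega)]
    congr 1
    omega
  rw [e1, e2] at h1
  exact h1

theorem pw_length (d : List α) (k : ℕ) : (pw d k).length = k * d.length := by
  induction k with
  | zero => simp [pw]
  | succ k ih => rw [pw, List.length_append, ih]; ring

theorem pw_comm {v ω : List α} (h : ω ++ v = v ++ ω) (k : ℕ) : ω ++ pw v k = pw v k ++ ω := by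
  induction k with
  | zero => simp [pw]
  | succ k ih =>
    rw [pw, ← List.append_assoc, h, List.append_assoc, ih, List.append_assoc]

end lists

section words

variable {n : ℕ}

theorem fac_iff (y u : Wd n) : Fac y u ↔ y.toList <:+: u.toList := by
  constructor
  · rintro ⟨a, b, rfl⟩
    refine ⟨a.toList, b.toList, ?_⟩
    rw [FreeMonoid.toList_mul, FreeMonoid.toList_mul]
  · rintro ⟨a, b, h⟩
    refine ⟨FreeMonoid.ofList a, FreeMonoid.ofList b, ?_⟩
    apply FreeMonoid.toList.injective
    rw [FreeMonoid.toList_mul, FreeMonoid.toList_mul, FreeMonoid.toList_ofList,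
      FreeMonoid.toList_ofList, h]

theorem toList_pow (u : Wd n) (k : ℕ) : (u ^ k).toList = pw u.toList k := by
  induction k with
  | zero => rw [pow_zero]; rfl
  | succ k ih => rw [pow_succ', FreeMonoid.toList_mul, ih]; rfl

theorem toList_ne {u : Wd n} (h : u ≠ 1) : 0 < u.toList.length := by
  rw [List.length_pos_iff]
  intro h'
  apply h
  apply FreeMonoid.toList.injective
  rw [h']
  rfl

theorem per' (m : ℕ) (wd v : Wd n) (k : ℕ) (h : NoPer m wd) (hv : v.toList.length ≤ m) :
    ¬ Fac wd (v ^ k) := by
  intro hf
  rw [fac_iff, toList_pow] at hf
  rcases Nat.eq_zero_or_pos v.toList.length with h0 | h0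
  · have := hf.length_le
    rw [pw_length, h0] at this
    have := h.1
    omega
  · obtain ⟨i, hi, hne⟩ := h.2 v.toList.length h0 hv
    exact hne (per_infix _ hf (pw_per v.toList k) i hi)

theorem comm' (m : ℕ) (wd v ω : Wd n) (h : NoPer m wd) (hv1 : v ≠ 1) (hv : v.toList.length ≤ m)
    (hf : Fac wd ω) : ω * v ≠ v * ω := by
  intro hc
  have hl : ω.toList ++ v.toList = v.toList ++ ω.toList := by
    have := congrArg FreeMonoid.toList hc
    rwa [FreeMonoid.toList_mul, FreeMonoid.toList_mul] at this
  have h1 := pw_comm hl ω.toList.length
  have h0 := toList_ne hv1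
  have h2 : ω.toList <+: pw v.toList ω.toList.length := by
    apply List.prefix_of_prefix_length_le (l₃ := ω.toList ++ pw v.toList ω.toList.length)
    · exact List.prefix_append _ _
    · rw [h1]
      exact List.prefix_append _ _
    · rw [pw_length]
      nlinarith
  apply per' m wd v ω.toList.length h hv
  rw [fac_iff, toList_pow]
  rw [fac_iff] at hf
  exact hf.trans h2.isInfix

/-! ### codes -/

/-- first letters decide -/
theorem inj_of {M : Type*} [LeftCancelMonoid M] (φ : Wd 2 →* M)
    (h : ∀ p q : Wd 2, φ (FreeMonoid.of 0 * p) ≠ φ (FreeMonoid.of 1 * q))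
    (h1 : ∀ (i : Fin 2) (p : Wd 2), φ (FreeMonoid.of i * p) ≠ 1) : Function.Injective φ := by
  intro p
  induction p using FreeMonoid.inductionOn' with
  | one =>
    intro q
    induction q using FreeMonoid.inductionOn' with
    | one => intro _; rfl
    | of_mul j q _ => intro hq; rw [map_one] at hq; exact absurd hq.symm (h1 j q)
  | of_mul i p ih =>
    intro q
    induction q using FreeMonoid.inductionOn' with
    | one => intro hq; rw [map_one] at hq; exact absurd hq (h1 i p)
    | of_mul j q _ =>
      intro hq
      by_cases hij : i = j
      · subst hij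
        rw [map_mul, map_mul] at hq
        rw [ih (mul_left_cancel hq)]
      · exfalso
        fin_cases i <;> fin_cases j
        · exact hij rfl
        · exact h p q hq
        · exact h q p hq.symm
        · exact hij rfl

/-- a word in two letters is `1` or starts with a letter -/
theorem wd2_cases (p : Wd 2) : p = 1 ∨ (∃ q, p = FreeMonoid.of 0 * q) ∨
    ∃ q, p = FreeMonoid.of 1 * q := by
  induction p using FreeMonoid.inductionOn' with
  | one => left; rfl
  | of_mul i p _ =>
    right
    fin_cases i
    · left; exact ⟨p, rfl⟩
    · right; exact ⟨p, rfl⟩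

theorem code_step {v ω' : Wd n} (hi : Function.Injective
    (FreeMonoid.lift ![v, ω'] : Wd 2 →* Wd n)) :
    Function.Injective (FreeMonoid.lift ![v, v * ω'] : Wd 2 →* Wd n) := by
  have hσ : (FreeMonoid.lift ![v, v * ω'] : Wd 2 →* Wd n) =
      (FreeMonoid.lift ![v, ω'] : Wd 2 →* Wd n).comp
        (FreeMonoid.lift ![FreeMonoid.of 0, FreeMonoid.of 0 * FreeMonoid.of 1]) := by
    apply FreeMonoid.hom_eq
    intro i
    fin_cases i <;> simp
  rw [hσ, MonoidHom.coe_comp]
  apply hi.comp
  apply inj_of
  · intro p q hpq
    rw [map_mul, map_mul] at hpq
    simp only [FreeMonoid.lift_eval_of, Matrix.cons_val_zero, Matrix.cons_val_one] at hpq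
    rw [mul_assoc] at hpq
    have hpq' := congrArg FreeMonoid.toList (mul_left_cancel hpq)
    rcases wd2_cases p with rfl | ⟨p', rfl⟩ | ⟨p', rfl⟩
    · simp at hpq'
    · simp at hpq'
    · simp [mul_assoc] at hpq'
  · intro i p hp
    rw [map_mul] at hp
    have hp' := congrArg FreeMonoid.toList hp
    fin_cases i
    · simp at hp'
    · simp at hp'

theorem code_step' {v' ω : Wd n} (hi : Function.Injective
    (FreeMonoid.lift ![v', ω] : Wd 2 →* Wd n)) :
    Function.Injective (FreeMonoid.lift ![ω * v', ω] : Wd 2 →* Wd n) := by
  have hσ : (FreeMonoid.lift ![ω * v', ω] : Wd 2 →* Wd n) =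
      (FreeMonoid.lift ![v', ω] : Wd 2 →* Wd n).comp
        (FreeMonoid.lift ![FreeMonoid.of 1 * FreeMonoid.of 0, FreeMonoid.of 1]) := by
    apply FreeMonoid.hom_eq
    intro i
    fin_cases i <;> simp
  rw [hσ, MonoidHom.coe_comp]
  apply hi.comp
  apply inj_of
  · intro p q hpq
    rw [map_mul, map_mul] at hpq
    simp only [FreeMonoid.lift_eval_of, Matrix.cons_val_zero, Matrix.cons_val_one] at hpq
    rw [mul_assoc] at hpq
    have hpq' := congrArg FreeMonoid.toList (mul_left_cancel hpq)
    rcases wd2_cases q with rfl | ⟨p', rfl⟩ | ⟨p', rfl⟩
    · simp at hpq'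
    · simp [mul_assoc] at hpq'
    · simp at hpq'
  · intro i p hp
    rw [map_mul] at hp
    have hp' := congrArg FreeMonoid.toList hp
    fin_cases i
    · simp at hp'
    · simp at hp'

theorem code' : ∀ (k : ℕ) (v ω : Wd n), v.toList.length + ω.toList.length ≤ k →
    ω * v ≠ v * ω → Function.Injective (FreeMonoid.lift ![v, ω] : Wd 2 →* Wd n) := by
  intro k
  induction k with
  | zero =>
    intro v ω hk h
    exfalso
    apply h
    have h1 : v.toList = [] := List.eq_nil_of_length_eq_zero (by omega)
    have h2 : ω.toList = [] := List.eq_nil_of_length_eq_zero (by omega)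
    apply FreeMonoid.toList.injective
    rw [FreeMonoid.toList_mul, FreeMonoid.toList_mul, h1, h2]
  | succ k ih =>
    intro v ω hk h
    have hv : v ≠ 1 := by rintro rfl; apply h; rw [mul_one, one_mul]
    have hω : ω ≠ 1 := by rintro rfl; apply h; rw [mul_one, one_mul]
    have hv' := toList_ne hv
    have hω' := toList_ne hω
    by_cases c1 : v.toList <+: ω.toList
    · obtain ⟨t, ht⟩ := c1
      have e : ω = v * FreeMonoid.ofList t := by
        apply FreeMonoid.toList.injective
        rw [FreeMonoid.toList_mul, FreeMonoid.toList_ofList, ht]
      rw [e]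
      apply code_step
      apply ih
      · rw [FreeMonoid.toList_ofList]
        have := congrArg List.length ht
        rw [List.length_append] at this
        omega
      · intro hc
        apply h
        rw [e, mul_assoc, hc]
    · by_cases c2 : ω.toList <+: v.toList
      · obtain ⟨t, ht⟩ := c2
        have e : v = ω * FreeMonoid.ofList t := by
          apply FreeMonoid.toList.injective
          rw [FreeMonoid.toList_mul, FreeMonoid.toList_ofList, ht]
        rw [e]
        apply code_step'
        apply ih
        · rw [FreeMonoid.toList_ofList]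
          have := congrArg List.length ht
          rw [List.length_append] at this
          omega
        · intro hc
          apply h
          rw [e, mul_assoc, ← hc]
      · apply inj_of
        · intro p q hpq
          rw [map_mul, map_mul] at hpq
          simp only [FreeMonoid.lift_eval_of, Matrix.cons_val_zero, Matrix.cons_val_one] at hpq
          have hl := congrArg FreeMonoid.toList hpq
          rw [FreeMonoid.toList_mul, FreeMonoid.toList_mul] at hl
          rcases List.prefix_or_prefix_of_prefix (l₁ := v.toList) (l₂ := ω.toList)
            (List.prefix_append _ _) (by rw [hl]; exact List.prefix_append _ _) with h1 | h1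
          · exact c1 h1
          · exact c2 h1
        · intro i p hp
          rw [map_mul] at hp
          rw [FreeMonoid.lift_eval_of] at hp
          have hl := congrArg (fun u => (FreeMonoid.toList u).length) hp
          simp only [FreeMonoid.toList_mul, List.length_append,
            FreeMonoid.toList_one, List.length_nil] at hl
          have h2 : 0 < (![v, ω] i).toList.length := by
            fin_cases i
            · exact hv'
            · exact hω'
          omega

end words

/-! ### the substitution `sw` -/

theorem sw_of3 (wd : Wd 3) (N : ℕ) : sw wd N (FreeMonoid.of 3) = wd ^ N := by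
  unfold sw
  rw [FreeMonoid.lift_eval_of]
  rfl

theorem sw_of (wd : Wd 3) (N : ℕ) (c : Fin 4) (hc : c ≠ 3) :
    ∃ a : Fin 3, (a : ℕ) = (c : ℕ) ∧ sw wd N (FreeMonoid.of c) = FreeMonoid.of a := by
  unfold sw
  rw [FreeMonoid.lift_eval_of]
  fin_cases c
  · exact ⟨0, rfl, rfl⟩
  · exact ⟨1, rfl, rfl⟩
  · exact ⟨2, rfl, rfl⟩
  · exact absurd rfl hc

theorem fac' (wd : Wd 3) (N : ℕ) (W : Wd 4) :
    (∀ p : List (Fin 3), p <+: (sw wd N W).toList → ¬ wd.toList <:+: p →
      p.length ≤ wd.toList.length + W.toList.length) ∧
    (∀ p : List (Fin 3), p <:+: (sw wd N W).toList → ¬ wd.toList <:+: p →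
      p.length ≤ 2 * wd.toList.length + W.toList.length) := by
  induction W using FreeMonoid.inductionOn' with
  | one =>
    rw [map_one]
    constructor
    · intro p hp _
      have := hp.length_le
      simp only [FreeMonoid.toList_one, List.length_nil] at this
      omega
    · intro p hp _
      have := hp.length_le
      simp only [FreeMonoid.toList_one, List.length_nil] at this
      omega
  | of_mul c W ih =>
    obtain ⟨ih1, ih2⟩ := ih
    rw [map_mul, FreeMonoid.toList_mul, FreeMonoid.toList_mul, FreeMonoid.toList_of]
    by_cases hc : c = 3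
    · subst hc
      rw [sw_of3, toList_pow]
      constructor
      · intro p hp hd
        have := pref_pw _ _ _ ih1 N p hp hd
        simp only [List.length_append]
        omega
      · intro p hp hd
        have := inf_pw _ _ _ ih1 ih2 N p hp hd
        simp only [List.length_append]
        omega
    · obtain ⟨a, -, ha⟩ := sw_of wd N c hc
      rw [ha, FreeMonoid.toList_of]
      have key : ∀ p : List (Fin 3), p <+: [a] ++ (sw wd N W).toList → ¬ wd.toList <:+: p →
          p.length ≤ wd.toList.length + ([c] ++ W.toList).length := by
        intro p hp hd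
        rw [List.singleton_append, List.prefix_cons_iff] at hp
        rcases hp with rfl | ⟨t, rfl, ht⟩
        · simp
        · have := ih1 t ht (fun h => hd (h.trans (List.suffix_cons a t).isInfix))
          simp only [List.length_append, List.length_cons, List.length_nil]
          omega
      refine ⟨key, ?_⟩
      intro p hp hd
      rw [List.singleton_append, List.infix_cons_iff] at hp
      rcases hp with hp | hp
      · have := key p hp hd
        omega
      · have := ih2 p hp hd
        simp only [List.length_append, List.length_cons, List.length_nil]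
        omega

/-- the first letter `3` -/
theorem first3 (W : Wd 4) (h : 1 ≤ W.toList.count 3) :
    ∃ s R : Wd 4, W = s * (FreeMonoid.of 3 * R) ∧ s.toList.count 3 = 0 := by
  induction W using FreeMonoid.inductionOn' with
  | one => simp at h
  | of_mul c W ih =>
    by_cases hc : c = 3
    · subst hc
      exact ⟨1, W, by rw [one_mul], by simp⟩
    · have h' : 1 ≤ W.toList.count 3 := by
        rw [FreeMonoid.toList_mul, FreeMonoid.toList_of, List.singleton_append,
          List.count_cons_of_ne hc] at h
        exact h
      obtain ⟨s, R, rfl, hs⟩ := ih h'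
      refine ⟨FreeMonoid.of c * s, R, by rw [mul_assoc], ?_⟩
      rw [FreeMonoid.toList_mul, FreeMonoid.toList_of, List.singleton_append,
        List.count_cons_of_ne hc, hs]

theorem sw_len0 (wd : Wd 3) (N : ℕ) (W : Wd 4) (h : W.toList.count 3 = 0) :
    (sw wd N W).toList.length = W.toList.length := by
  induction W using FreeMonoid.inductionOn' with
  | one => rw [map_one]; rfl
  | of_mul c W ih =>
    rw [FreeMonoid.toList_mul, FreeMonoid.toList_of, List.singleton_append] at h
    by_cases hc : c = 3
    · subst hc
      rw [List.count_cons_self] at h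
      omega
    · rw [List.count_cons_of_ne hc] at h
      obtain ⟨a, -, ha⟩ := sw_of wd N c hc
      rw [map_mul, ha, FreeMonoid.toList_mul, FreeMonoid.toList_mul, FreeMonoid.toList_of,
        FreeMonoid.toList_of, List.length_append, List.length_append, ih h]
      rfl

/-- the contradiction for a first difference `3` against a letter `< 3` -/
theorem diff3 (m N : ℕ) (wd : Wd 3) (R s : Wd 4) (R' : Wd 4) (h : NoPer m wd) (hN : 1 ≤ N)
    (hs : s.toList.count 3 = 0) (hs1 : 1 ≤ s.toList.length) (hsm : s.toList.length ≤ m) :
    sw wd N (FreeMonoid.of 3 * R) ≠ sw wd N (s * (FreeMonoid.of 3 * R')) := by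
  intro he
  obtain ⟨i, hi, hne⟩ := h.2 _ hs1 hsm
  apply hne
  obtain ⟨N, rfl⟩ : ∃ N', N = N' + 1 := ⟨N - 1, by omega⟩
  rw [map_mul, map_mul, map_mul, sw_of3, pow_succ', mul_assoc, mul_assoc] at he
  have hl := congrArg FreeMonoid.toList he
  rw [FreeMonoid.toList_mul wd, FreeMonoid.toList_mul (sw _ _ _), FreeMonoid.toList_mul wd] at hl
  have hsl := sw_len0 wd (N + 1) s hs
  have h1 := congrArg (fun l : List (Fin 3) => l[i + s.toList.length]?) hl
  rw [List.getElem?_append_left hi, List.getElem?_append_right (by omega), hsl,
    Nat.add_sub_cancel, List.getElem?_append_left (by omega)] at h1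
  exact h1.symm

theorem inj' (m N : ℕ) (wd : Wd 3) (h : NoPer m wd) (hN : 1 ≤ N) : ∀ (W W' : Wd 4),
    W.toList.length ≤ m → W'.toList.length ≤ m → W.toList.count 3 = W'.toList.count 3 →
    sw wd N W = sw wd N W' → W = W' := by
  intro W
  induction W using FreeMonoid.inductionOn' with
  | one =>
    intro W' _ _ hc he
    have h0 : W'.toList.count 3 = 0 := by rw [← hc]; rfl
    have h1 := sw_len0 wd N W' h0
    rw [← he, map_one] at h1
    apply FreeMonoid.toList.injective
    exact (List.eq_nil_of_length_eq_zero h1.symm).symm
  | of_mul c W ih =>
    intro W' hl hl' hc he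
    induction W' using FreeMonoid.inductionOn' with
    | one =>
      have h0 : (FreeMonoid.of c * W).toList.count 3 = 0 := by rw [hc]; rfl
      have h1 := sw_len0 wd N _ h0
      rw [he, map_one] at h1
      apply FreeMonoid.toList.injective
      exact List.eq_nil_of_length_eq_zero h1.symm
    | of_mul c' W' _ =>
      rw [FreeMonoid.toList_mul, FreeMonoid.toList_of, List.singleton_append,
        List.length_cons] at hl hl'
      by_cases hcc : c = c'
      · subst hcc
        rw [map_mul, map_mul] at he
        rw [ih W' (by omega) (by omega) ?_ (mul_left_cancel he)]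
        rw [FreeMonoid.toList_mul, FreeMonoid.toList_mul, FreeMonoid.toList_of,
          List.count_append, List.count_append] at hc
        omega
      · exfalso
        by_cases h3 : c = 3
        · subst h3
          have hc' : c' ≠ 3 := fun h => hcc h.symm
          have h1 : 1 ≤ W'.toList.count 3 := by
            rw [FreeMonoid.toList_mul, FreeMonoid.toList_mul, FreeMonoid.toList_of,
              FreeMonoid.toList_of, List.singleton_append, List.singleton_append,
              List.count_cons_self, List.count_cons_of_ne hc'] at hc
            omega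
          obtain ⟨s, R', rfl, hs⟩ := first3 W' h1
          rw [← mul_assoc] at he
          refine diff3 m N wd W (FreeMonoid.of c' * s) R' h hN ?_ ?_ ?_ he
          · rw [FreeMonoid.toList_mul, FreeMonoid.toList_of, List.singleton_append,
              List.count_cons_of_ne hc', hs]
          · rw [FreeMonoid.toList_mul, FreeMonoid.toList_of, List.singleton_append,
              List.length_cons]
            omega
          · rw [FreeMonoid.toList_mul, FreeMonoid.toList_of, List.singleton_append,
              List.length_cons]
            rw [FreeMonoid.toList_mul, List.length_append] at hl'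
            omega
        · by_cases h3' : c' = 3
          · subst h3'
            have h1 : 1 ≤ W.toList.count 3 := by
              rw [FreeMonoid.toList_mul, FreeMonoid.toList_mul, FreeMonoid.toList_of,
                FreeMonoid.toList_of, List.singleton_append, List.singleton_append,
                List.count_cons_self, List.count_cons_of_ne h3] at hc
              omega
            obtain ⟨s, R', rfl, hs⟩ := first3 W h1
            rw [← mul_assoc] at he
            refine diff3 m N wd W' (FreeMonoid.of c * s) R' h hN ?_ ?_ ?_ he.symm
            · rw [FreeMonoid.toList_mul, FreeMonoid.toList_of, List.singleton_append,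
                List.count_cons_of_ne h3, hs]
            · rw [FreeMonoid.toList_mul, FreeMonoid.toList_of, List.singleton_append,
                List.length_cons]
              omega
            · rw [FreeMonoid.toList_mul, FreeMonoid.toList_of, List.singleton_append,
                List.length_cons]
              rw [FreeMonoid.toList_mul, List.length_append] at hl
              omega
          · obtain ⟨a, ha1, ha⟩ := sw_of wd N c h3
            obtain ⟨a', ha1', ha'⟩ := sw_of wd N c' h3'
            rw [map_mul, map_mul, ha, ha'] at he
            have hl := congrArg FreeMonoid.toList he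
            rw [FreeMonoid.toList_mul, FreeMonoid.toList_mul, FreeMonoid.toList_of,
              FreeMonoid.toList_of, List.singleton_append, List.singleton_append,
              List.cons.injEq] at hl
            apply hcc
            apply Fin.ext
            rw [← ha1, ← ha1', hl.1]

/-- Module WFAC -/
theorem wfac : WfacFacts where
  fac wd N W y hf hn := by
    rw [fac_iff] at hf hn
    exact (fac' wd N W).2 y.toList hf hn
  per m wd v k h hv := per' m wd v k h hv
  comm m wd v ω h hv1 hv hf := comm' m wd v ω h hv1 hv hf
  code m wd v ω h hv1 hv hf := code' _ v ω le_rfl (comm' m wd v ω h hv1 hv hf)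
  inj m N wd W W' h hN hl hl' hc he := inj' m N wd h hN W W' hl hl' hc he

end Pool.Agent.Lib.MP_e1f7e2_al.FA.H22
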